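import Pool.Agent.H33.PtcDefs
import Pool.Agent.H33.Bto2

namespace Pool.Agent.Results.MP_a15892_an.Q1

open Matrix Pool.Agent.H33.Ptc Filter Topology InnerProductSpace
open scoped ComplexOrder MatrixOrder ComplexConjugate

lemma gram_of_psd {ι : Type} [Fintype ι] [DecidableEq ι] (M : Matrix ι ι ℂ) (h : M.PosSemidef) :
    ∃ E : ι → EuclideanSpace ℂ ι, ∀ i j, ⟪E i, E j⟫_ℂ = M i j := by
  obtain ⟨N, rfl⟩ := CStarAlgebra.nonneg_iff_eq_star_mul_self.mp h.nonneg
  refine ⟨fun i => WithLp.toLp 2 (fun k => N k i), fun i j => ?_⟩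
  simp [PiLp.inner_apply, mul_apply, mul_comm]

lemma pair_of_abs {m : ℕ} {l : ℤ} (h : |l| ≤ ((m + 1 : ℕ) : ℤ) - 1) :
    ∃ i j : Fin (m + 1), l = (i : ℤ) - (j : ℤ) := by
  rw [abs_le] at h
  rcases le_total 0 l with h0 | h0
  · exact ⟨⟨l.toNat, by omega⟩, 0, by simp; omega⟩
  · exact ⟨0, ⟨(-l).toNat, by omega⟩, by simp; omega⟩

/-- `y` is a positive definite function given by vectors. -/
def PD (m : ℕ) (y : ℤ → ℂ) : Prop :=
  ∃ w : ℤ → EuclideanSpace ℂ (Fin (m + 1)), ∀ p q, ⟪w p, w q⟫_ℂ = y (p - q)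

lemma PD.psd {m : ℕ} {y : ℤ → ℂ} (h : PD m y) (n : ℕ) : (toep y n).PosSemidef := by
  obtain ⟨w, hw⟩ := h
  have : toep y n = gram ℂ (fun i : Fin n => w i) := by
    ext i j
    exact (hw i j).symm
  rw [this]
  exact posSemidef_gram ℂ _

lemma PD.neg {m : ℕ} {y : ℤ → ℂ} (h : PD m y) (l : ℤ) : y (-l) = conj (y l) := by
  obtain ⟨w, hw⟩ := h
  have h1 := hw 0 l
  have h2 := hw l 0
  rw [zero_sub] at h1
  rw [sub_zero] at h2
  rw [← h1, ← h2, inner_conj_symm]

lemma scalar_ext (m : ℕ) (a : ℤ → ℂ) (h : (toep a (m + 1)).PosSemidef) :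
    ∃ y, (∀ l : ℤ, |l| ≤ ((m + 1 : ℕ) : ℤ) - 1 → y l = a l) ∧ PD m y := by
  obtain ⟨u, hu⟩ := gram_of_psd _ h
  obtain ⟨U, hU⟩ := Pool.Agent.H33.Bto.exists_unitary
    (Fintype.linearCombination ℂ fun i : Fin m => u i.castSucc)
    (Fintype.linearCombination ℂ fun i : Fin m => u i.succ) fun c => by
      rw [norm_eq_sqrt_re_inner (𝕜 := ℂ), norm_eq_sqrt_re_inner (𝕜 := ℂ)]
      congr 2
      simp only [Fintype.linearCombination_apply, sum_inner, inner_sum, inner_smul_left,
        inner_smul_right, hu, toep, of_apply, Fin.val_castSucc, Fin.val_succ]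
      push_cast
      simp only [add_sub_add_right_eq_sub]
  have h1 : ∀ i : Fin m, U (u i.castSucc) = u i.succ := fun i => by
    simpa using hU (Pi.single i 1)
  have h2 : ∀ i : Fin (m + 1), u i = (U ^ ((i : ℕ) : ℤ)) (u 0) := by
    intro i
    induction i using Fin.induction with
    | zero => simp
    | succ i ih =>
      rw [← h1, ih, Fin.val_succ, Fin.val_castSucc, Nat.cast_succ, add_comm _ (1 : ℤ), _root_.zpow_add,
        zpow_one]
      rfl
  have h3 : ∀ p q : ℤ, ⟪(U ^ p) (u 0), (U ^ q) (u 0)⟫_ℂ = ⟪u 0, (U ^ (-(p - q))) (u 0)⟫_ℂ := by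
    intro p q
    rw [← (U ^ p).inner_map_map (u 0)]
    congr 1
    change _ = (U ^ p * U ^ (-(p - q))) (u 0)
    rw [← _root_.zpow_add]
    congr 2
    ring
  refine ⟨fun l => ⟪u 0, (U ^ (-l)) (u 0)⟫_ℂ, fun l hl => ?_, fun p => (U ^ p) (u 0), h3⟩
  obtain ⟨i, j, rfl⟩ := pair_of_abs hl
  beta_reduce
  rw [← h3, ← h2, ← h2, hu]
  rfl

open scoped Matrix.Norms.L2Operator in
lemma psd_ev {ι : Type} [Fintype ι] [DecidableEq ι] (M : Matrix ι ι ℂ) (ε : ℝ) (hε : 0 < ε)
    (h : (M - (ε : ℂ) • 1).PosSemidef) (F : ℕ → Matrix ι ι ℂ) (hF : ∀ j, (F j).IsHermitian)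
    (hM : M.IsHermitian) (ht : Tendsto F atTop (𝓝 M)) : ∀ᶠ j in atTop, (F j).PosSemidef := by
  have := (tendsto_iff_norm_sub_tendsto_zero.mp ht).eventually (ge_mem_nhds hε)
  filter_upwards [this] with j hj
  have h1 : IsSelfAdjoint (F j - M) := (hF j).sub hM
  have h2 := h1.neg_algebraMap_norm_le_self
  have h3 : algebraMap ℝ (Matrix ι ι ℂ) ‖F j - M‖ ≤ algebraMap ℝ (Matrix ι ι ℂ) ε :=
    algebraMap_mono _ hj
  have h4 : algebraMap ℝ (Matrix ι ι ℂ) ε ≤ M := by
    rw [Algebra.algebraMap_eq_smul_one]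
    exact h
  have h5 := (neg_le_neg (h3.trans h4)).trans h2
  rw [le_sub_iff_add_le, neg_add_cancel] at h5
  exact h5.posSemidef

open scoped Matrix.Norms.L2Operator in
lemma exists_eps {ι : Type} [Fintype ι] [DecidableEq ι] [Nonempty ι] (M : Matrix ι ι ℂ) (h : M.PosDef) :
    ∃ ε : ℝ, 0 < ε ∧ (M - (ε : ℂ) • 1).PosSemidef := by
  obtain ⟨r, h1, h2⟩ := (CFC.exists_pos_algebraMap_le_iff h.isHermitian.isSelfAdjoint).mpr
    (CStarAlgebra.isStrictlyPositive_iff_isSelfAdjoint_and_spectrum_pos.mp h.isStrictlyPositive).2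
  refine ⟨r, h1, ?_⟩
  rw [Algebra.algebraMap_eq_smul_one] at h2
  exact h2

open scoped Matrix.Norms.L2Operator in
lemma mpos_of_pt {ι X : Type} [Fintype ι] [DecidableEq ι] [TopologicalSpace X]
    (M : Matrix ι ι C(X, ℂ)) (h : ∀ x, (M.map fun f => f x).PosSemidef) : MPos M := by
  have hc : Continuous fun x => M.map fun f => f x :=
    continuous_matrix fun i j => (M i j).continuous
  have hs : Continuous fun x => CFC.sqrt (M.map fun f => f x) :=
    CFC.continuousOn_sqrt.comp_continuous hc fun x => (h x).nonneg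
  refine ⟨Matrix.of fun i j => ⟨fun x => CFC.sqrt (M.map fun f => f x) i j,
    hs.matrix_elem i j⟩, ?_⟩
  ext i j x
  have h1 := CFC.sqrt_mul_sqrt_self (M.map fun f => f x) (h x).nonneg
  have h2 : (CFC.sqrt (M.map fun f => f x)).IsHermitian := (CFC.sqrt_nonneg _).posSemidef.1
  have h3 := congrFun (congrFun h1 i) j
  rw [map_apply] at h3
  rw [← h3]
  simp only [mul_apply, conjTranspose_apply, of_apply, ContinuousMap.coe_sum, Finset.sum_apply,
    ContinuousMap.mul_apply, ContinuousMap.star_apply, ContinuousMap.coe_mk, h2.apply]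

lemma pt_of_mpos {ι X : Type} [Fintype ι] [TopologicalSpace X]
    (M : Matrix ι ι C(X, ℂ)) (h : MPos M) (x : X) : (M.map fun f => f x).PosSemidef := by
  obtain ⟨N, rfl⟩ := h
  convert posSemidef_conjTranspose_mul_self (N.map fun f => f x) using 1
  ext i j
  simp [mul_apply]

lemma seq_ext (m n : ℕ) (a : ℕ → ℤ → ℂ) (b : ℤ → ℂ)
    (hab : ∀ l, Tendsto (fun j => a j l) atTop (𝓝 (b l)))
    (ha : ∀ j, (toep (a j) (m + 1)).PosSemidef) (hb : (toep b (m + 1)).PosSemidef) :
    ∃ (y : ℕ → ℤ → ℂ) (z : ℤ → ℂ), (∀ l, Tendsto (fun j => y j l) atTop (𝓝 (z l))) ∧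
      (∀ j l, |l| ≤ ((m + 1 : ℕ) : ℤ) - 1 → y j l = a j l) ∧
      (∀ l, |l| ≤ ((m + 1 : ℕ) : ℤ) - 1 → z l = b l) ∧
      (∀ j, (toep (y j) n).PosSemidef) ∧ (toep z n).PosSemidef := by
  classical
  choose y hy1 hy2 using fun j => scalar_ext m (a j) (ha j)
  by_cases hdet : (toep b (m + 1)).det = 0
  · obtain ⟨z, hz1, hz2⟩ := scalar_ext m b hb
    refine ⟨y, z, ?_, hy1, hz1, fun j => (hy2 j).psd n, hz2.psd n⟩
    obtain ⟨v, hv0, hv⟩ := exists_mulVec_eq_zero_iff.mpr hdet
    have small : ∀ l, |l| ≤ ((m + 1 : ℕ) : ℤ) - 1 → Tendsto (fun j => y j l) atTop (𝓝 (z l)) := by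
      intro l hl
      simp only [hy1 _ l hl, hz1 l hl]
      exact hab l
    have habs : ∀ i i' : Fin (m + 1), |(i : ℤ) - (i' : ℤ)| ≤ ((m + 1 : ℕ) : ℤ) - 1 := by
      intro i i'
      rw [abs_le]
      constructor <;> omega
    have cs : ∀ (c : ℤ → ℂ), PD m c → ∀ l : ℤ, ‖∑ i : Fin (m + 1), v i * c (l - i)‖ ^ 2 ≤
        ‖c 0‖ * ‖∑ i : Fin (m + 1), conj (v i) * ∑ i' : Fin (m + 1), v i' * c (i - i')‖ := by
      rintro c ⟨w, hw⟩ l
      have e1 : ∑ i : Fin (m + 1), v i * c (l - i) = ⟪w l, ∑ i : Fin (m + 1), v i • w i⟫_ℂ := by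
        simp only [inner_sum, inner_smul_right, hw]
      have e2 : ∑ i : Fin (m + 1), conj (v i) * ∑ i' : Fin (m + 1), v i' * c (i - i') =
          ⟪∑ i : Fin (m + 1), v i • w i, ∑ i : Fin (m + 1), v i • w i⟫_ℂ := by
        rw [sum_inner]
        refine Finset.sum_congr rfl fun i _ => ?_
        rw [inner_smul_left]
        simp only [inner_sum, inner_smul_right, hw]
      have e3 : c 0 = ⟪w l, w l⟫_ℂ := by rw [hw, sub_self]
      rw [e1, e2, e3, inner_self_eq_norm_sq_to_K, inner_self_eq_norm_sq_to_K]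
      simp only [norm_pow, RCLike.norm_ofReal, abs_norm, ← mul_pow]
      exact pow_le_pow_left₀ (norm_nonneg _) (norm_inner_le_norm _ _) 2
    have q0 : ∑ i : Fin (m + 1), conj (v i) * ∑ i' : Fin (m + 1), v i' * z (i - i') = 0 := by
      refine Finset.sum_eq_zero fun i _ => ?_
      have := congrFun hv i
      simp only [mulVec, dotProduct, toep, of_apply, Pi.zero_apply] at this
      simp only [hz1 _ (habs _ _), mul_comm (v _), this, mul_zero]
    have r0 : ∀ l : ℤ, ∑ i : Fin (m + 1), v i * z (l - i) = 0 := by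
      intro l
      have := cs z hz2 l
      rw [q0, norm_zero, mul_zero] at this
      exact norm_eq_zero.mp (pow_eq_zero_iff two_ne_zero |>.mp (le_antisymm this (sq_nonneg _)))
    have r1 : ∀ l : ℤ, Tendsto (fun j => ∑ i : Fin (m + 1), v i * y j (l - i)) atTop (𝓝 0) := by
      intro l
      have t1 := (small 0 (by simp)).norm.mul (tendsto_finsetSum Finset.univ
        fun (i : Fin (m + 1)) _ => (tendsto_finsetSum Finset.univ fun (i' : Fin (m + 1)) _ =>
          (small _ (habs i i')).const_mul (v i')).const_mul (conj (v i))).norm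
      rw [q0, norm_zero, mul_zero] at t1
      have t2 := (squeeze_zero (fun j => sq_nonneg _) (fun j => cs (y j) (hy2 j) l) t1).sqrt
      rw [tendsto_zero_iff_norm_tendsto_zero]
      simpa using t2
    obtain ⟨i0, hi0, hmin⟩ := (Finset.univ.filter fun i => v i ≠ 0).exists_min_image id
      (by
        obtain ⟨i, hi⟩ := Function.ne_iff.mp hv0
        exact ⟨i, by simpa using hi⟩)
    have hi0' : v i0 ≠ 0 := by simpa using hi0
    have pos : ∀ s : ℕ, Tendsto (fun j => y j s) atTop (𝓝 (z s)) := by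
      intro s
      induction s using Nat.strong_induction_on with
      | _ s ih =>
      by_cases hs : s ≤ m
      · exact small s (by simp; omega)
      have t1 : Tendsto (fun j => ∑ i ∈ Finset.univ.erase i0, v i * y j (s + i0 - i)) atTop
          (𝓝 (∑ i ∈ Finset.univ.erase i0, v i * z (s + i0 - i))) := by
        refine tendsto_finsetSum _ fun i hi => ?_
        by_cases hvi : v i = 0
        · simp [hvi]
        have h1 : i0 ≤ i := hmin i (by simpa using hvi)
        have h2 : i ≠ i0 := (Finset.mem_erase.mp hi).1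
        have h3 : (s : ℤ) + i0 - i = ((s + i0 - i : ℕ) : ℤ) := by omega
        rw [h3]
        exact (ih _ (by omega)).const_mul _
      have t2 := ((r1 (s + i0)).sub t1).const_mul (v i0)⁻¹
      have e := r0 (s + i0)
      rw [← Finset.add_sum_erase _ _ (Finset.mem_univ i0)] at e
      simp only [← Finset.add_sum_erase _ _ (Finset.mem_univ i0), add_sub_cancel_right,
        inv_mul_cancel_left₀ hi0'] at t2
      rw [add_sub_cancel_right] at e
      convert t2 using 2
      field_simp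
      linear_combination e
    intro l
    rcases le_total 0 l with h0 | h0
    · lift l to ℕ using h0
      exact pos l
    · obtain ⟨s, rfl⟩ : ∃ s : ℕ, l = -s := ⟨(-l).toNat, by omega⟩
      simp only [(hy2 _).neg, hz2.neg]
      exact (Complex.continuous_conj.tendsto _).comp (pos s)
  · obtain ⟨ε, hε, h1⟩ := exists_eps _ (hb.posDef_iff_det_ne_zero.mpr hdet)
    have key : ∀ (c : ℤ → ℂ) (t : ℂ) (k : ℕ),
        toep (fun l => c l + if l = 0 then t else 0) k = toep c k + t • 1 := by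
      intro c t k
      ext i j
      simp [toep, one_apply, sub_eq_zero, Fin.ext_iff]
    obtain ⟨z', hz1, hz2⟩ := scalar_ext m (fun l => b l + if l = 0 then -(ε : ℂ) else 0)
      (by rw [key, neg_smul, ← sub_eq_add_neg]; exact h1)
    let z : ℤ → ℂ := fun l => z' l + if l = 0 then (ε : ℂ) else 0
    have hz : ∀ l, |l| ≤ ((m + 1 : ℕ) : ℤ) - 1 → z l = b l := by
      intro l hl
      simp only [z, hz1 l hl]
      split_ifs <;> ring
    have hε' : (0 : ℂ) ≤ ε := by exact_mod_cast hε.le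
    have hzp : (toep z n).PosSemidef := by
      rw [key]
      exact (hz2.psd n).add (PosSemidef.one.smul hε')
    have hzn : ∀ l, z (-l) = conj (z l) := by
      intro l
      simp only [z, hz2.neg, neg_eq_zero, map_add]
      split_ifs <;> simp
    let x : ℕ → ℤ → ℂ := fun j l => if |l| ≤ ((m + 1 : ℕ) : ℤ) - 1 then a j l else z l
    have hx : ∀ l, Tendsto (fun j => x j l) atTop (𝓝 (z l)) := by
      intro l
      simp only [x]
      split_ifs with h
      · rw [hz l h]; exact hab l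
      · exact tendsto_const_nhds
    have hev := psd_ev (toep z n) ε hε (by rw [key, add_sub_cancel_right]; exact hz2.psd n)
      (fun j => toep (x j) n) (fun j => by
        ext i i'
        simp only [conjTranspose_apply, toep, of_apply, x]
        rw [← neg_sub (i' : ℤ), abs_neg]
        split_ifs with h
        · rw [← hy1 j _ h, ← hy1 j _ (by rwa [abs_neg]), (hy2 j).neg]; rfl
        · rw [hzn]; rfl) hzp.1
      (tendsto_pi_nhds.mpr fun i => tendsto_pi_nhds.mpr fun i' => hx _)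
    refine ⟨fun j => if (toep (x j) n).PosSemidef then x j else y j, z, fun l => ?_,
      fun j l hl => ?_, hz, fun j => ?_, hzp⟩
    · refine (hx l).congr' ?_
      filter_upwards [hev] with j hj
      rw [if_pos hj]
    · beta_reduce
      split_ifs
      · simp only [x, if_pos hl]
      · exact hy1 j l hl
    · beta_reduce
      split_ifs with h
      · exact h
      · exact (hy2 j).psd n

lemma ptc : PTC C(OnePoint ℕ, ℂ) := by
  intro k n hk _ a ha
  obtain ⟨m, rfl⟩ : ∃ m, k = m + 1 := ⟨k - 1, by omega⟩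
  obtain ⟨y, z, h1, h2, h3, h4, h5⟩ := seq_ext m n (fun j l => a l j) (fun l => a l OnePoint.infty)
    (fun l => (OnePoint.continuous_iff_from_nat _).mp (a l).continuous)
    (fun j => pt_of_mpos _ ha j) (pt_of_mpos _ ha OnePoint.infty)
  refine ⟨fun l => OnePoint.continuousMapMkNat (fun j => y j l) (z l) (h1 l), fun l hl => ?_,
    mpos_of_pt _ fun x => ?_⟩
  · ext x
    induction x using OnePoint.rec with
    | infty => exact h3 l hl
    | coe j => exact h2 j l hl
  · induction x using OnePoint.rec with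
    | infty => exact h5
    | coe j => exact h4 j

noncomputable def qn (n : ℕ) : ℂ := ((1 / ((n : ℝ) + 1) : ℝ) : ℂ)

lemma tq : Tendsto qn atTop (𝓝 0) := by
  have := (Complex.continuous_ofReal.tendsto _).comp
    (tendsto_one_div_add_atTop_nhds_zero_nat (𝕜 := ℝ))
  rw [Complex.ofReal_zero] at this
  exact this

def sg (n : ℕ) : ℂ := if Even n then 1 else -1

noncomputable def qf : C(OnePoint ℕ, ℂ) := OnePoint.continuousMapMkNat qn 0 tq

noncomputable def yf : C(OnePoint ℕ, ℂ) := OnePoint.continuousMapMkNat (fun n => sg n * qn n) 0 (by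
  rw [tendsto_zero_iff_norm_tendsto_zero]
  refine (tendsto_zero_iff_norm_tendsto_zero.mp tq).congr fun n => ?_
  unfold sg
  split_ifs <;> simp)

lemma star_qf : star qf = qf := by
  ext x
  induction x using OnePoint.rec with
  | infty => change star (0 : ℂ) = 0; simp
  | coe n => exact Complex.conj_ofReal _

lemma sg_sq (n : ℕ) : sg n * sg n = 1 := by unfold sg; split_ifs <;> simp
lemma sg_conj (n : ℕ) : conj (sg n) = sg n := by unfold sg; split_ifs <;> simp

lemma star_yf : star yf = yf := by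
  ext x
  induction x using OnePoint.rec with
  | infty => change star (0 : ℂ) = 0; simp
  | coe n =>
    change conj (sg n * qn n) = sg n * qn n
    rw [map_mul, sg_conj, qn, Complex.conj_ofReal]

lemma yf_sq : yf * yf = qf * qf := by
  ext x
  induction x using OnePoint.rec with
  | infty => rfl
  | coe n =>
    change (sg n * qn n) * (sg n * qn n) = qn n * qn n
    linear_combination (qn n * qn n) * sg_sq n

noncomputable def dat (l : ℤ) : Matrix (Fin 3) (Fin 3) C(OnePoint ℕ, ℂ) :=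
  if l = 0 then !![1, 0, 0; 0, qf * qf, 0; 0, 0, 1] else
    if l = 1 then !![0, 0, 0; qf, 0, 0; 0, yf, 0] else !![0, qf, 0; 0, 0, yf; 0, 0, 0]

lemma dat_pos : MPos (toep dat 2) := by
  refine ⟨!![!![1, 0, 0; 0, yf, 0; 0, 0, 1], !![0, qf, 0; 0, 0, 1; 0, 0, 0];
    0, !![1, 0, 0; 0, 0, 0; 0, 0, 0]], ?_⟩
  ext1 i j
  ext1 r s
  fin_cases i <;> fin_cases j <;> fin_cases r <;> fin_cases s <;>
    simp [toep, dat, mul_apply, Fin.sum_univ_succ, star_apply, star_qf, star_yf, yf_sq]

lemma par {E : Type*} [NormedAddCommGroup E] [InnerProductSpace ℂ E] (x y : E) (c : ℂ)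
    (hx : ⟪x, x⟫_ℂ = 1) (hy : ⟪y, y⟫_ℂ = c * c) (h : ⟪y, x⟫_ℂ = c) (hc : conj c = c) :
    y = c • x := by
  rw [← sub_eq_zero, ← inner_self_eq_zero (𝕜 := ℂ)]
  have h' : ⟪x, y⟫_ℂ = c := by rw [← inner_conj_symm, h, hc]
  simp only [inner_sub_left, inner_sub_right, inner_smul_left, inner_smul_right, hx, hy, h, h', hc]
  ring

lemma gram_block {ι κ X : Type} [Fintype ι] [Fintype κ] [DecidableEq κ] [TopologicalSpace X]
    (M : Matrix ι ι (Matrix κ κ C(X, ℂ))) (h : MPos M) (x : X) :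
    ∃ E : ι → κ → EuclideanSpace ℂ (ι × κ), ∀ i r j s, ⟪E i r, E j s⟫_ℂ = M i j r s x := by
  obtain ⟨N, rfl⟩ := h
  refine ⟨fun i r => WithLp.toLp 2 (fun k => N k.1 i k.2 r x), fun i r j s => ?_⟩
  simp [PiLp.inner_apply, mul_apply, Matrix.sum_apply, star_apply, Fintype.sum_prod_type, mul_comm]

lemma fail : ¬ PTC (Matrix (Fin 3) (Fin 3) C(OnePoint ℕ, ℂ)) := by
  intro h
  obtain ⟨y, hy, hN⟩ := h 2 3 (by norm_num) (by norm_num) dat dat_pos
  have y0 := hy 0 (by norm_num)
  have y1 := hy 1 (by norm_num)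
  have y2 := hy (-1) (by norm_num)
  have key : ∀ n : ℕ, y 2 2 0 n = sg n := by
    intro n
    obtain ⟨E, hE⟩ := gram_block _ hN (n : OnePoint ℕ)
    have hq : conj (qn n) = qn n := Complex.conj_ofReal _
    have r1 := par (E 0 0) (E 1 1) (qn n) (by rw [hE]; change y 0 0 0 n = _; rw [y0]; rfl)
      (by rw [hE]; change y 0 1 1 n = _; rw [y0]; rfl)
      (by rw [hE]; change y 1 1 0 n = _; rw [y1]; rfl) hq
    have r2 := par (E 2 2) (E 1 1) (sg n * qn n) (by rw [hE]; change y 0 2 2 n = _; rw [y0]; rfl)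
      (by
        rw [hE]; change y 0 1 1 n = _; rw [y0]
        change qn n * qn n = _
        linear_combination -(qn n * qn n) * sg_sq n)
      (by rw [hE]; change y (-1) 1 2 n = _; rw [y2]; rfl) (by rw [map_mul, hq, sg_conj])
    have r3 := congrArg (fun v => ⟪E 2 2, v⟫_ℂ) (r1.symm.trans r2)
    simp only [inner_smul_right] at r3
    rw [hE, hE] at r3
    change qn n * y 2 2 0 n = sg n * qn n * y 0 2 2 n at r3
    rw [y0] at r3
    change _ = _ * (1 : ℂ) at r3
    have hq0 : qn n ≠ 0 := Complex.ofReal_ne_zero.mpr (by positivity)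
    apply mul_left_cancel₀ hq0
    linear_combination r3
  have ht : Tendsto (fun n : ℕ => y 2 2 0 n) atTop (𝓝 (y 2 2 0 OnePoint.infty)) :=
    (OnePoint.continuous_iff_from_nat _).mp (y 2 2 0).continuous
  have t1 := ht.comp (tendsto_id.const_mul_atTop' (show 0 < 2 by norm_num))
  have t2 := ht.comp ((tendsto_add_atTop_nat 1).comp
    (tendsto_id.const_mul_atTop' (show 0 < 2 by norm_num)))
  simp only [Function.comp_def, key, id, sg] at t1 t2
  simp only [even_two, Even.mul_right, if_true] at t1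
  simp only [Nat.not_even_two_mul_add_one, if_false] at t2
  have := (tendsto_const_nhds_iff.mp t1).trans (tendsto_const_nhds_iff.mp t2).symm
  norm_num at this

theorem result : PTC C(OnePoint ℕ, ℂ) ∧ ¬ PTC (Matrix (Fin 3) (Fin 3) C(OnePoint ℕ, ℂ)) :=
  ⟨ptc, fail⟩

end Pool.Agent.Results.MP_a15892_an.Q1
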